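import Pool.Agent.Helper717.Hull2

/-!
MP_49a3fa_co. A convex body `K` of area `1` in the plane such that every right triangle containing
`K` has area more than `2.02`.

`K` is a homothetic copy of the pentagon with the vertices `(0,18), (2,0), (25,3), (23,34), (0,34)`.
If a right triangle with the vertex `A` at the right angle contains `K`, and `p` is the direction
of one leg, then for `x ∈ K` the product of the distances of `x` to the legs is at most half the
area of the triangle; these distances are at least `⟨x - y, p⟩ / |p|` and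
`⟨x - z, rot p⟩ / |p|` for `y, z ∈ K`. The circle of directions is divided into 22 sectors; in each
of them fixed points `x, y, z` of the pentagon give the bound.
-/

set_option autoImplicit false

open MeasureTheory Set
open scoped ENNReal Pointwise

namespace Pool.Agent.Results.MP_49a3fa_co.RightTriangles

open Pool.Agent.Helper717.Hull1 (orient half_convex tri_iff bary or_cyc or_swap')
open Pool.Agent.Helper717.Hull2 (tri_vol)

/-- The Euclidean plane. -/
abbrev E2 := EuclideanSpace ℝ (Fin 2)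

/-- A convex body: a compact convex set with nonempty interior. -/
def IsConvexBody (K : Set E2) : Prop := IsCompact K ∧ Convex ℝ K ∧ (interior K).Nonempty

/-- A (non-degenerate) right triangle: the convex hull of three points `A`, `B`, `C` with
`B ≠ A`, `C ≠ A` and `B - A` orthogonal to `C - A`. -/
def IsRightTriangle (T : Set E2) : Prop :=
  ∃ A B C : E2, B ≠ A ∧ C ≠ A ∧ inner ℝ (B - A) (C - A) = 0 ∧ T = convexHull ℝ {A, B, C}

/-! ### The certificate -/

abbrev Z2 := ℤ × ℤ

/-- twice the signed area -/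
def orz (a b c : Z2) : ℤ := (b.1 - a.1) * (c.2 - a.2) - (b.2 - a.2) * (c.1 - a.1)

/-- the vertices of the pentagon -/
def V0 : Z2 := (0, 144)
def V1 : Z2 := (16, 0)
def V2 : Z2 := (200, 24)
def V3 : Z2 := (184, 272)
def V4 : Z2 := (0, 272)

/-- integer points of the pentagon -/
def inK (x : Z2) : Bool :=
  decide (0 ≤ orz V0 V1 x) && decide (0 ≤ orz V1 V2 x) && decide (0 ≤ orz V2 V3 x) &&
    decide (0 ≤ orz V3 V4 x) && decide (0 ≤ orz V4 V0 x)

def lf (x y p : Z2) : ℤ := (x.1 - y.1) * p.1 + (x.2 - y.2) * p.2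
def mf (x z p : Z2) : ℤ := -((x.1 - z.1) * p.2) + (x.2 - z.2) * p.1

/-- the sector between `r` and `s` is good for the points `x, y, z` -/
def okc (r s x y z : Z2) : Bool :=
  inK x && inK y && inK z &&
  decide (0 < r.1 * s.2 - r.2 * s.1) &&
  decide (0 ≤ lf x y r) && decide (0 ≤ mf x z r) && decide (0 ≤ lf x y s) && decide (0 ≤ mf x z s) &&
  decide (49547 * (r.1 * r.1 + r.2 * r.2) ≤ lf x y r * mf x z r) &&
  decide (2 * 49547 * (r.1 * s.1 + r.2 * s.2) ≤ lf x y r * mf x z s + lf x y s * mf x z r) &&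
  decide (49547 * (s.1 * s.1 + s.2 * s.2) ≤ lf x y s * mf x z s)

def chk : Z2 → List (Z2 × Z2 × Z2 × Z2) → Z2 → Bool
  | r, [], last => decide (r = last)
  | r, (s, x, y, z) :: t, last => okc r s x y z && chk s t last

def Q1 : List (Z2 × Z2 × Z2 × Z2) :=
    [((173, 19), (184, 272), (0, 144), (16, 0)),
    ((140, 52), (184, 272), (16, 0), (16, 0)),
    ((57, 135), (118, 272), (16, 0), (200, 24)),
    ((0, 192), (0, 248), (16, 0), (200, 24))]

def Q2 : List (Z2 × Z2 × Z2 × Z2) :=
    [((-11, 85), (0, 272), (16, 0), (184, 272)),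
    ((-36, 60), (0, 272), (200, 24), (184, 272)),
    ((-41, 55), (0, 203), (200, 24), (184, 272)),
    ((-45, 51), (0, 181), (200, 24), (184, 272)),
    ((-53, 43), (0, 147), (200, 24), (184, 272)),
    ((-56, 40), (3, 117), (200, 24), (184, 272)),
    ((-57, 39), (4, 108), (200, 24), (184, 272)),
    ((-59, 37), (5, 99), (200, 24), (184, 272)),
    ((-63, 33), (7, 81), (200, 24), (184, 272)),
    ((-79, 17), (12, 36), (200, 24), (184, 272)),
    ((-96, 0), (16, 0), (200, 24), (184, 272))]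

def Q3 : List (Z2 × Z2 × Z2 × Z2) :=
    [((-39, -9), (16, 0), (200, 24), (0, 272)),
    ((-17, -31), (39, 3), (184, 272), (0, 272)),
    ((0, -48), (200, 24), (184, 272), (0, 272))]

def Q4 : List (Z2 × Z2 × Z2 × Z2) :=
    [((6, -42), (200, 24), (0, 272), (0, 144)),
    ((22, -26), (200, 24), (0, 272), (16, 0)),
    ((30, -18), (192, 148), (0, 272), (16, 0)),
    ((48, 0), (183, 272), (0, 272), (16, 0))]

theorem Q1_ok : chk (192, 0) Q1 (0, 192) = true := by decide +kernel

theorem Q2_ok : chk (0, 96) Q2 (-96, 0) = true := by decide +kernel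

theorem Q3_ok : chk (-48, 0) Q3 (0, -48) = true := by decide +kernel

theorem Q4_ok : chk (0, -48) Q4 (48, 0) = true := by decide +kernel

/-! ### The pentagon -/

/-- the point of the plane with the integer coordinates `x` -/
noncomputable def pt (x : Z2) : E2 := !₂[(x.1 : ℝ), (x.2 : ℝ)]

@[simp] theorem pt_zero (x : Z2) : pt x 0 = (x.1 : ℝ) := rfl
@[simp] theorem pt_one (x : Z2) : pt x 1 = (x.2 : ℝ) := rfl

theorem orient_pt (a b c : Z2) : orient (pt a) (pt b) (pt c) = (orz a b c : ℝ) := by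
  simp [orient, orz]

/-- the pentagon -/
def K0 : Set E2 := {q | 0 ≤ orient (pt V0) (pt V1) q ∧ 0 ≤ orient (pt V1) (pt V2) q ∧
  0 ≤ orient (pt V2) (pt V3) q ∧ 0 ≤ orient (pt V3) (pt V4) q ∧ 0 ≤ orient (pt V4) (pt V0) q}

theorem mem_K0 {x : Z2} (h : inK x = true) : pt x ∈ K0 := by
  simp only [inK, Bool.and_eq_true, decide_eq_true_eq] at h
  obtain ⟨⟨⟨⟨h1, h2⟩, h3⟩, h4⟩, h5⟩ := h
  refine ⟨?_, ?_, ?_, ?_, ?_⟩ <;> rw [orient_pt] <;> exact_mod_cast ‹_›

/-- The direction `(a, b)` is good. -/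
def Good (a b : ℝ) : Prop := ∃ x ∈ K0, ∃ y ∈ K0, ∃ z ∈ K0,
  0 ≤ (x 0 - y 0) * a + (x 1 - y 1) * b ∧ 0 ≤ -((x 0 - z 0) * b) + (x 1 - z 1) * a ∧
  49547 * (a * a + b * b) ≤
    ((x 0 - y 0) * a + (x 1 - y 1) * b) * (-((x 0 - z 0) * b) + (x 1 - z 1) * a)

theorem cone {r s x y z : Z2} (h : okc r s x y z = true) (a b : ℝ)
    (h1 : 0 ≤ (r.1 : ℝ) * b - r.2 * a) (h2 : 0 ≤ a * (s.2 : ℝ) - b * s.1) : Good a b := by
  simp only [okc, Bool.and_eq_true, decide_eq_true_eq] at h
  obtain ⟨⟨⟨⟨⟨⟨⟨⟨⟨⟨hx, hy⟩, hz⟩, hD⟩, e1⟩, e2⟩, e3⟩, e4⟩, e5⟩, e6⟩, e7⟩ := h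
  have hD' : (0 : ℝ) < r.1 * s.2 - r.2 * s.1 := by exact_mod_cast hD
  have e1' : (0 : ℝ) ≤ lf x y r := by exact_mod_cast e1
  have e2' : (0 : ℝ) ≤ mf x z r := by exact_mod_cast e2
  have e3' : (0 : ℝ) ≤ lf x y s := by exact_mod_cast e3
  have e4' : (0 : ℝ) ≤ mf x z s := by exact_mod_cast e4
  have e5' : (49547 : ℝ) * (r.1 * r.1 + r.2 * r.2) ≤ lf x y r * mf x z r := by exact_mod_cast e5
  have e6' : (2 * 49547 : ℝ) * (r.1 * s.1 + r.2 * s.2) ≤
    lf x y r * mf x z s + lf x y s * mf x z r := by exact_mod_cast e6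
  have e7' : (49547 : ℝ) * (s.1 * s.1 + s.2 * s.2) ≤ lf x y s * mf x z s := by exact_mod_cast e7
  refine ⟨pt x, mem_K0 hx, pt y, mem_K0 hy, pt z, mem_K0 hz, ?_⟩
  simp only [pt_zero, pt_one]
  have l1 : ((lf x y r : ℤ) : ℝ) = (x.1 - y.1) * r.1 + (x.2 - y.2) * r.2 := by
    simp [lf]
  have l2 : ((lf x y s : ℤ) : ℝ) = (x.1 - y.1) * s.1 + (x.2 - y.2) * s.2 := by
    simp [lf]
  have m1 : ((mf x z r : ℤ) : ℝ) = -((x.1 - z.1) * r.2) + (x.2 - z.2) * r.1 := by
    simp [mf]
  have m2 : ((mf x z s : ℤ) : ℝ) = -((x.1 - z.1) * s.2) + (x.2 - z.2) * s.1 := by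
    simp [mf]
  set D : ℝ := (r.1 : ℝ) * s.2 - r.2 * s.1 with hDdef
  set u : ℝ := a * (s.2 : ℝ) - b * s.1 with hu
  set v : ℝ := (r.1 : ℝ) * b - r.2 * a with hv
  set L : ℝ := ((x.1 : ℝ) - y.1) * a + (x.2 - y.2) * b with hL
  set M : ℝ := -(((x.1 : ℝ) - z.1) * b) + (x.2 - z.2) * a with hM
  have ha : D * a = u * r.1 + v * s.1 := by rw [hDdef, hu, hv]; ring
  have hb : D * b = u * r.2 + v * s.2 := by rw [hDdef, hu, hv]; ring
  have hDL : D * L = u * lf x y r + v * lf x y s := by
    rw [l1, l2, hL]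
    linear_combination ((x.1 : ℝ) - y.1) * ha + ((x.2 : ℝ) - y.2) * hb
  have hDM : D * M = u * mf x z r + v * mf x z s := by
    rw [m1, m2, hM]
    linear_combination -((x.1 : ℝ) - z.1) * hb + ((x.2 : ℝ) - z.2) * ha
  have hLn : 0 ≤ L := by
    have : 0 ≤ D * L := by rw [hDL]; positivity
    exact nonneg_of_mul_nonneg_right this hD'
  have hMn : 0 ≤ M := by
    have : 0 ≤ D * M := by rw [hDM]; positivity
    exact nonneg_of_mul_nonneg_right this hD'
  refine ⟨hLn, hMn, ?_⟩
  have key : 0 ≤ D ^ 2 * (L * M - 49547 * (a * a + b * b)) := by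
    have : D ^ 2 * (L * M - 49547 * (a * a + b * b)) =
        u ^ 2 * (lf x y r * mf x z r - 49547 * (r.1 * r.1 + r.2 * r.2)) +
        u * v * (lf x y r * mf x z s + lf x y s * mf x z r -
          (2 * 49547) * (r.1 * s.1 + r.2 * s.2)) +
        v ^ 2 * (lf x y s * mf x z s - 49547 * (s.1 * s.1 + s.2 * s.2)) := by
      have e : D ^ 2 * (L * M - 49547 * (a * a + b * b)) =
        (D * L) * (D * M) - 49547 * ((D * a) * (D * a) + (D * b) * (D * b)) := by ring
      rw [e, hDL, hDM, ha, hb]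
      ring
    rw [this]
    have q1 : 0 ≤ u ^ 2 * (lf x y r * mf x z r - 49547 * (r.1 * r.1 + r.2 * r.2)) :=
      mul_nonneg (sq_nonneg u) (sub_nonneg.2 e5')
    have q2 : 0 ≤ u * v * (lf x y r * mf x z s + lf x y s * mf x z r -
          (2 * 49547) * (r.1 * s.1 + r.2 * s.2)) :=
      mul_nonneg (mul_nonneg h2 h1) (sub_nonneg.2 e6')
    have q3 : 0 ≤ v ^ 2 * (lf x y s * mf x z s - 49547 * (s.1 * s.1 + s.2 * s.2)) :=
      mul_nonneg (sq_nonneg v) (sub_nonneg.2 e7')
    linarith
  have := nonneg_of_mul_nonneg_right key (by positivity)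
  linarith

theorem chk_sound (l : List (Z2 × Z2 × Z2 × Z2)) : ∀ (r last : Z2), l ≠ [] →
    chk r l last = true → ∀ a b : ℝ, 0 ≤ (r.1 : ℝ) * b - r.2 * a →
    0 ≤ a * (last.2 : ℝ) - b * last.1 → Good a b := by
  induction l with
  | nil => intro r last h; exact absurd rfl h
  | cons c t ih =>
    obtain ⟨s, x, y, z⟩ := c
    intro r last _ h a b h1 h2
    simp only [chk, Bool.and_eq_true] at h
    by_cases hs : 0 ≤ a * (s.2 : ℝ) - b * s.1
    · exact cone h.1 a b h1 hs
    · by_cases ht : t = []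
      · subst ht
        simp only [chk, decide_eq_true_eq] at h
        rw [h.2] at hs
        exact absurd h2 hs
      · exact ih s last ht h.2 a b (by linarith [not_le.1 hs]) h2

theorem good (a b : ℝ) : Good a b := by
  rcases le_total 0 a with ha | ha <;> rcases le_total 0 b with hb | hb
  · exact chk_sound Q1 _ _ (by simp [Q1]) Q1_ok a b (by simp; linarith) (by simp; linarith)
  · exact chk_sound Q4 _ _ (by simp [Q4]) Q4_ok a b (by simp; linarith) (by simp; linarith)
  · exact chk_sound Q2 _ _ (by simp [Q2]) Q2_ok a b (by simp; linarith) (by simp; linarith)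
  · exact chk_sound Q3 _ _ (by simp [Q3]) Q3_ok a b (by simp; linarith) (by simp; linarith)

/-- The main estimate. -/
theorem tri_bound {A B C : E2} (hD : 0 < orient A B C)
    (hin : (B 0 - A 0) * (C 0 - A 0) + (B 1 - A 1) * (C 1 - A 1) = 0) {lam : ℝ} (hlam : 0 ≤ lam)
    (hsub : ∀ q ∈ K0, lam • q ∈ convexHull ℝ ({A, B, C} : Set E2)) :
    4 * 49547 * lam ^ 2 ≤ orient A B C := by
  set a := B 0 - A 0 with ha
  set b := B 1 - A 1 with hb
  obtain ⟨x, hx, y, hy, z, hz, hl, hm, hlm⟩ := good a b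
  set D := orient A B C with hDd
  have hDe : D = a * (C 1 - A 1) - b * (C 0 - A 0) := by rw [hDd, ha, hb]; rfl
  have hp : 0 < a * a + b * b := by
    rcases eq_or_ne a 0 with h0 | h0
    · rcases eq_or_ne b 0 with h1 | h1
      · rw [h0, h1] at hDe; simp at hDe; rw [hDe] at hD; exact absurd hD (lt_irrefl _)
      · exact add_pos_of_nonneg_of_pos (mul_self_nonneg a) (mul_self_pos.2 h1)
    · exact add_pos_of_pos_of_nonneg (mul_self_pos.2 h0) (mul_self_nonneg b)
  have X := (tri_iff A B C _ hD).1 (hsub x hx)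
  have Y := (tri_iff A B C _ hD).1 (hsub y hy)
  have Z := (tri_iff A B C _ hD).1 (hsub z hz)
  -- distances to the legs
  have hleg : ∀ w : E2, D * ((w 0 - A 0) * a + (w 1 - A 1) * b) = orient C A w * (a * a + b * b) := by
    intro w
    have h2 : (C 0 - A 0) * D = -b * ((C 0 - A 0) * (C 0 - A 0) + (C 1 - A 1) * (C 1 - A 1)) := by
      rw [hDe]; linear_combination (C 1 - A 1) * hin
    have h3 : (C 1 - A 1) * D = a * ((C 0 - A 0) * (C 0 - A 0) + (C 1 - A 1) * (C 1 - A 1)) := by
      rw [hDe]; linear_combination -(C 0 - A 0) * hin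
    have h4 : orient C A w = -(C 0 - A 0) * (w 1 - A 1) + (C 1 - A 1) * (w 0 - A 0) := by
      unfold orient; ring
    rw [h4, hDe]
    linear_combination ((w 1 - A 1) * a - (w 0 - A 0) * b) * hin
  have hcr : ∀ w : E2, -((w 0 - A 0) * b) + (w 1 - A 1) * a = orient A B w := by
    intro w; rw [ha, hb]; unfold orient; ring
  have hsum : orient A B (lam • x) + orient C A (lam • x) ≤ D := by
    have := Pool.Agent.Helper717.Hull1.or_sum A B C (lam • x)
    rw [hDd]; linarith [X.2.1]
  have c0 : ∀ w : E2, (lam • w) 0 = lam * w 0 := fun w => rfl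
  have c1 : ∀ w : E2, (lam • w) 1 = lam * w 1 := fun w => rfl
  have hl2 : D * (lam * ((x 0 - y 0) * a + (x 1 - y 1) * b)) ≤
      orient C A (lam • x) * (a * a + b * b) := by
    have e1 := hleg (lam • x)
    have e2 := hleg (lam • y)
    have e3 : 0 ≤ orient C A (lam • y) * (a * a + b * b) := mul_nonneg Y.2.2 hp.le
    rw [c0, c1] at e1 e2
    have e4 : D * (lam * ((x 0 - y 0) * a + (x 1 - y 1) * b)) =
      D * ((lam * x 0 - A 0) * a + (lam * x 1 - A 1) * b) -
        D * ((lam * y 0 - A 0) * a + (lam * y 1 - A 1) * b) := by ring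
    rw [e4, e1, e2]
    linarith
  have hm2 : lam * (-((x 0 - z 0) * b) + (x 1 - z 1) * a) ≤ orient A B (lam • x) := by
    have e1 := hcr (lam • x)
    have e2 := hcr (lam • z)
    have e3 : 0 ≤ orient A B (lam • z) := Z.1
    rw [c0, c1] at e1 e2
    have e4 : lam * (-((x 0 - z 0) * b) + (x 1 - z 1) * a) =
      (-((lam * x 0 - A 0) * b) + (lam * x 1 - A 1) * a) -
        (-((lam * z 0 - A 0) * b) + (lam * z 1 - A 1) * a) := by ring
    rw [e4, e1, e2]
    linarith
  set α := orient C A (lam • x) with hα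
  set β := orient A B (lam • x) with hβ
  set L := (x 0 - y 0) * a + (x 1 - y 1) * b with hL
  set M := -((x 0 - z 0) * b) + (x 1 - z 1) * a with hM
  have hα0 : 0 ≤ α := X.2.2
  have hβ0 : 0 ≤ β := X.1
  have h40 : (β + α) ^ 2 ≤ D ^ 2 := pow_le_pow_left₀ (by positivity) hsum 2
  have h4 : α * β ≤ D ^ 2 / 4 := by
    have e : α * β = ((β + α) ^ 2 - (α - β) ^ 2) / 4 := by ring
    rw [e]
    linarith [sq_nonneg (α - β)]
  have h5 : (D * (lam * L)) * (lam * M) ≤ (α * (a * a + b * b)) * β := by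
    apply mul_le_mul hl2 hm2 (mul_nonneg hlam hm) (mul_nonneg hα0 hp.le)
  have h6 : D * lam ^ 2 * (49547 * (a * a + b * b)) ≤ D ^ 2 / 4 * (a * a + b * b) := by
    calc D * lam ^ 2 * (49547 * (a * a + b * b)) ≤ D * lam ^ 2 * (L * M) :=
          mul_le_mul_of_nonneg_left hlm (by positivity)
      _ = (D * (lam * L)) * (lam * M) := by ring
      _ ≤ (α * (a * a + b * b)) * β := h5
      _ = (α * β) * (a * a + b * b) := by ring
      _ ≤ D ^ 2 / 4 * (a * a + b * b) := mul_le_mul_of_nonneg_right h4 hp.le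
  have h7 : (D * (a * a + b * b)) * (4 * 49547 * lam ^ 2) ≤ (D * (a * a + b * b)) * D := by
    have e1 : (D * (a * a + b * b)) * (4 * 49547 * lam ^ 2) =
      4 * (D * lam ^ 2 * (49547 * (a * a + b * b))) := by ring
    have e2 : (D * (a * a + b * b)) * D = 4 * (D ^ 2 / 4 * (a * a + b * b)) := by ring
    rw [e1, e2]
    linarith
  exact le_of_mul_le_mul_left h7 (by positivity)

theorem K0_closed : IsClosed K0 := by
  have h : ∀ a b : E2, IsClosed {q : E2 | 0 ≤ orient a b q} := by
    intro a b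
    apply isClosed_le continuous_const
    unfold orient
    fun_prop
  exact (h _ _).inter ((h _ _).inter ((h _ _).inter ((h _ _).inter (h _ _))))

theorem K0_convex : Convex ℝ K0 :=
  (half_convex _ _).inter ((half_convex _ _).inter ((half_convex _ _).inter
    ((half_convex _ _).inter (half_convex _ _))))

theorem K0_cover : K0 ⊆ convexHull ℝ {pt V0, pt V1, pt V2} ∪ (convexHull ℝ {pt V0, pt V2, pt V3} ∪
    convexHull ℝ {pt V0, pt V3, pt V4}) := by
  intro q hq
  obtain ⟨h1, h2, h3, h4, h5⟩ := hq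
  have o1 : 0 < orient (pt V0) (pt V1) (pt V2) := by rw [orient_pt]; norm_num [orz, V0, V1, V2]
  have o2 : 0 < orient (pt V0) (pt V2) (pt V3) := by rw [orient_pt]; norm_num [orz, V0, V3, V2]
  have o3 : 0 < orient (pt V0) (pt V3) (pt V4) := by rw [orient_pt]; norm_num [orz, V0, V3, V4]
  have sw : ∀ a b : E2, orient b a q = -orient a b q := fun a b =>
    Pool.Agent.Helper717.Hull1.or_swap a b q
  by_cases c1 : 0 ≤ orient (pt V2) (pt V0) q
  · left
    exact (tri_iff _ _ _ _ o1).2 ⟨h1, h2, c1⟩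
  · right
    have c1' : 0 ≤ orient (pt V0) (pt V2) q := by rw [sw]; linarith [not_le.1 c1]
    by_cases c2 : 0 ≤ orient (pt V3) (pt V0) q
    · left
      exact (tri_iff _ _ _ _ o2).2 ⟨c1', h3, c2⟩
    · right
      have c2' : 0 ≤ orient (pt V0) (pt V3) q := by rw [sw]; linarith [not_le.1 c2]
      exact (tri_iff _ _ _ _ o3).2 ⟨c2', h4, h5⟩

theorem tri_compact (a b c : E2) : IsCompact (convexHull ℝ ({a, b, c} : Set E2)) :=
  (Set.toFinite ({a, b, c} : Set E2)).isCompact_convexHull ℝ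

theorem K0_compact : IsCompact K0 :=
  ((tri_compact _ _ _).union ((tri_compact _ _ _).union (tri_compact _ _ _))).of_isClosed_subset
    K0_closed K0_cover

theorem K0_interior : (interior K0).Nonempty := by
  have h : ∀ a b : E2, IsOpen {q : E2 | 0 < orient a b q} := by
    intro a b
    apply isOpen_lt continuous_const
    unfold orient
    fun_prop
  refine ⟨pt (100, 100), ?_⟩
  rw [mem_interior]
  refine ⟨{q | 0 < orient (pt V0) (pt V1) q} ∩ ({q | 0 < orient (pt V1) (pt V2) q} ∩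
    ({q | 0 < orient (pt V2) (pt V3) q} ∩ ({q | 0 < orient (pt V3) (pt V4) q} ∩
      {q | 0 < orient (pt V4) (pt V0) q}))), ?_, ?_, ?_⟩
  · rintro q ⟨h1, h2, h3, h4, h5⟩
    exact ⟨le_of_lt h1, le_of_lt h2, le_of_lt h3, le_of_lt h4, le_of_lt h5⟩
  · exact (h _ _).inter ((h _ _).inter ((h _ _).inter ((h _ _).inter (h _ _))))
  · refine ⟨?_, ?_, ?_, ?_, ?_⟩ <;> simp only [mem_ofPred_eq] <;> rw [orient_pt] <;>
      norm_num [orz, V0, V1, V2, V3, V4]

theorem K0_vol_le : volume K0 ≤ ENNReal.ofReal 49056 := by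
  have o1 : orient (pt V0) (pt V1) (pt V2) = 26880 := by rw [orient_pt]; norm_num [orz, V0, V1, V2]
  have o2 : orient (pt V0) (pt V2) (pt V3) = 47680 := by rw [orient_pt]; norm_num [orz, V0, V3, V2]
  have o3 : orient (pt V0) (pt V3) (pt V4) = 23552 := by rw [orient_pt]; norm_num [orz, V0, V3, V4]
  refine (measure_mono K0_cover).trans ((measure_union_le _ _).trans
    ((add_le_add_right (measure_union_le _ _) _).trans ?_))
  rw [tri_vol _ _ _ (by rw [o1]; norm_num), tri_vol _ _ _ (by rw [o2]; norm_num),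
    tri_vol _ _ _ (by rw [o3]; norm_num), o1, o2, o3]
  rw [← ENNReal.ofReal_add (by positivity) (by positivity),
    ← ENNReal.ofReal_add (by positivity) (by positivity)]
  apply ENNReal.ofReal_le_ofReal
  norm_num

theorem result : ∃ K : Set E2, IsConvexBody K ∧ volume K = 1 ∧
    ∀ T : Set E2, IsRightTriangle T → K ⊆ T → ENNReal.ofReal (101 / 50) < volume T := by
  set v : ℝ := (volume K0).toReal with hv
  have hfin : volume K0 ≠ ⊤ := ne_top_of_le_ne_top ENNReal.ofReal_ne_top K0_vol_le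
  have hpos : 0 < volume K0 :=
    lt_of_lt_of_le (isOpen_interior.measure_pos _ K0_interior) (measure_mono interior_subset)
  have hv0 : 0 < v := ENNReal.toReal_pos hpos.ne' hfin
  have hv1 : v ≤ 49056 := by
    have := ENNReal.toReal_mono ENNReal.ofReal_ne_top K0_vol_le
    rwa [ENNReal.toReal_ofReal (by norm_num)] at this
  set lam : ℝ := 1 / √v with hlam
  have hlam0 : 0 < lam := by positivity
  have hlam2 : lam ^ 2 = 1 / v := by
    rw [hlam, div_pow, one_pow, Real.sq_sqrt hv0.le]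
  refine ⟨lam • K0, ⟨K0_compact.smul lam, K0_convex.smul lam, ?_⟩, ?_, ?_⟩
  · rw [interior_smul₀ hlam0.ne']
    exact K0_interior.smul_set
  · rw [Measure.addHaar_smul, finrank_euclideanSpace, Fintype.card_fin, abs_of_nonneg (by positivity),
      hlam2, ← ENNReal.ofReal_toReal hfin, ← hv, ← ENNReal.ofReal_mul (by positivity)]
    rw [one_div, inv_mul_cancel₀ hv0.ne']
    simp
  · rintro T ⟨A, B, C, hBA, hCA, hin, rfl⟩ hsub
    have hin' : (B 0 - A 0) * (C 0 - A 0) + (B 1 - A 1) * (C 1 - A 1) = 0 := by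
      have := hin
      simp only [EuclideanSpace.inner_eq_star_dotProduct, dotProduct, Fin.sum_univ_two] at this
      simp at this
      linarith
    have hK : ∀ q ∈ K0, lam • q ∈ convexHull ℝ ({A, B, C} : Set E2) :=
      fun q hq => hsub (smul_mem_smul_set hq)
    have hne : orient A B C ≠ 0 := by
      intro h0
      have hB : (B 0 - A 0) * (B 0 - A 0) + (B 1 - A 1) * (B 1 - A 1) ≠ 0 := by
        intro h
        apply hBA
        have e1 : B 0 - A 0 = 0 := by nlinarith [mul_self_nonneg (B 0 - A 0), mul_self_nonneg (B 1 - A 1)]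
        have e2 : B 1 - A 1 = 0 := by nlinarith [mul_self_nonneg (B 0 - A 0), mul_self_nonneg (B 1 - A 1)]
        ext i
        fin_cases i
        · simpa [sub_eq_zero] using e1
        · simpa [sub_eq_zero] using e2
      have h1 : (C 0 - A 0) * ((B 0 - A 0) * (B 0 - A 0) + (B 1 - A 1) * (B 1 - A 1)) = 0 := by
        unfold orient at h0
        linear_combination (B 0 - A 0) * hin' - (B 1 - A 1) * h0
      have h2 : (C 1 - A 1) * ((B 0 - A 0) * (B 0 - A 0) + (B 1 - A 1) * (B 1 - A 1)) = 0 := by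
        unfold orient at h0
        linear_combination (B 1 - A 1) * hin' + (B 0 - A 0) * h0
      have e1 := (mul_eq_zero.1 h1).resolve_right hB
      have e2 := (mul_eq_zero.1 h2).resolve_right hB
      apply hCA
      ext i
      fin_cases i
      · simpa [sub_eq_zero] using e1
      · simpa [sub_eq_zero] using e2
    have hmain : 4 * 49547 * lam ^ 2 ≤ |orient A B C| := by
      rcases lt_or_gt_of_ne hne with h | h
      · have h1 : 0 < orient A C B := by rw [or_swap']; linarith
        have h2 : ({A, B, C} : Set E2) = {A, C, B} := by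
          ext q; simp only [mem_insert_iff, mem_singleton_iff]; tauto
        rw [h2] at hK
        have := tri_bound h1 (by linarith) hlam0.le hK
        rw [abs_of_neg h, ← or_swap']
        exact this
      · rw [abs_of_pos h]
        exact tri_bound h hin' hlam0.le hK
    rw [tri_vol _ _ _ hne]
    apply (ENNReal.ofReal_lt_ofReal_iff (by positivity)).2
    rw [hlam2] at hmain
    have h3 : 1 / 49056 ≤ 1 / v := one_div_le_one_div_of_le hv0 hv1
    linarith

end Pool.Agent.Results.MP_49a3fa_co.RightTriangles
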